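import Pool.Agent.W845.PM.Base

set_option autoImplicit false
open scoped Classical
open Filter Topology MeasureTheory ProbabilityTheory
open scoped ENNReal NNReal BigOperators

namespace Pool.Agent.W371.PM

open Pool.Agent.W845.PM

theorem le_nu {V : Type} [Fintype V] {G : SimpleGraph V} {M : Finset (Sym2 V)} (h : IsM G M) :
    M.card ≤ nu G :=
  Finset.le_sup (f := Finset.card) (Finset.mem_filter.2 ⟨Finset.mem_univ M, h⟩)

theorem exists_nu {V : Type} [Fintype V] (G : SimpleGraph V) :
    ∃ M : Finset (Sym2 V), IsM G M ∧ M.card = nu G := by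
  have hne : (Finset.univ.filter (fun M : Finset (Sym2 V) => IsM G M)).Nonempty :=
    ⟨∅, Finset.mem_filter.2 ⟨Finset.mem_univ _, by simp [IsM]⟩⟩
  obtain ⟨M, hM, he⟩ := Finset.exists_mem_eq_sup _ hne Finset.card
  exact ⟨M, (Finset.mem_filter.1 hM).2, he.symm⟩

theorem nu_del_le {V : Type} [Fintype V] (G : SimpleGraph V) (v : V) : nu (del G v) ≤ nu G := by
  obtain ⟨M, hM, he⟩ := exists_nu (del G v)
  rw [← he]
  exact le_nu ⟨fun e h => SimpleGraph.edgeSet_mono (del_le G v) (hM.1 e h), hM.2⟩

theorem nu_le_del {V : Type} [Fintype V] (G : SimpleGraph V) (v : V) :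
    nu G ≤ nu (del G v) + 1 := by
  obtain ⟨M, hM, he⟩ := exists_nu G
  rw [← he]
  have h1 : IsM (del G v) (M.filter fun e => ¬ v ∈ e) := by
    refine ⟨fun e h => ?_, fun e h f h' => ?_⟩
    · rw [Finset.mem_filter] at h
      have h2 := hM.1 e h.1
      have h3 := h.2
      induction e using Sym2.ind with
      | _ a b =>
        rw [SimpleGraph.mem_edgeSet] at h2 ⊢
        rw [Sym2.mem_iff, not_or] at h3
        exact ⟨h2, fun e => h3.1 e.symm, fun e => h3.2 e.symm⟩
    · exact hM.2 e (Finset.mem_filter.1 h).1 f (Finset.mem_filter.1 h').1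
  have h2 : (M.filter fun e => v ∈ e).card ≤ 1 := by
    rw [Finset.card_le_one]
    intro e h f h'
    rw [Finset.mem_filter] at h h'
    by_contra hne
    exact hM.2 e h.1 f h'.1 hne v h.2 h'.2
  have h3 := Finset.card_filter_add_card_filter_not (s := M) (fun e => v ∈ e)
  have h4 := le_nu h1
  omega

theorem lip : S_LIP := by
  intro V _ G G' v h
  have h1 := nu_del_le G v
  have h2 := nu_le_del G v
  have h3 := nu_del_le G' v
  have h4 := nu_le_del G' v
  rw [h] at h1 h2
  have h5 : (nu G : ℝ) ≤ nu G' + 1 := by exact_mod_cast h2.trans (by omega)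
  have h6 : (nu G' : ℝ) ≤ nu G + 1 := by exact_mod_cast h4.trans (by omega)
  unfold dfc
  rw [abs_le]
  constructor <;> linarith

theorem kbd : S_KBD := by
  intro n a x hn hxa han hx
  have : Nonempty (Fin n) := ⟨⟨0, by omega⟩⟩
  obtain ⟨v, hv⟩ := (KB n a).exists_minimal_degree_vertex
  rw [hv]
  by_cases h : v.val < a
  · have h1 : n - a ≤ (KB n a).degree v := by
      have h2 : ((Finset.univ : Finset (Fin (n - a))).image
          (fun i => (⟨a + i.val, by omega⟩ : Fin n))) ⊆ (KB n a).neighborFinset v := by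
        intro y hy
        rw [Finset.mem_image] at hy
        obtain ⟨i, -, rfl⟩ := hy
        rw [SimpleGraph.mem_neighborFinset]
        exact Or.inl ⟨h, by simp⟩
      have h3 := Finset.card_le_card h2
      rw [Finset.card_image_of_injective _ (by
        intro i j hij
        simp only [Fin.mk.injEq, add_right_inj] at hij
        exact Fin.ext hij), Finset.card_univ, Fintype.card_fin] at h3
      exact h3
    have h4 : ((n - a : ℕ) : ℝ) ≤ (KB n a).degree v := by exact_mod_cast h1
    rw [Nat.cast_sub han] at h4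
    linarith
  · have h1 : a ≤ (KB n a).degree v := by
      have h2 : ((Finset.univ : Finset (Fin a)).image (Fin.castLE han)) ⊆
          (KB n a).neighborFinset v := by
        intro y hy
        rw [Finset.mem_image] at hy
        obtain ⟨i, -, rfl⟩ := hy
        rw [SimpleGraph.mem_neighborFinset]
        exact Or.inr ⟨i.isLt, by omega⟩
      have h3 := Finset.card_le_card h2
      rw [Finset.card_image_of_injective _ (Fin.castLE_injective han), Finset.card_univ,
        Fintype.card_fin] at h3
      exact h3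
    have h4 : (a : ℝ) ≤ (KB n a).degree v := by exact_mod_cast h1
    linarith

theorem det0 : S_DET0 := by
  intro n a R e han he hPM
  obtain ⟨M, hM⟩ := hPM
  have hM' := (SimpleGraph.Subgraph.isPerfectMatching_iff).1 hM
  choose π hπ hπu using hM'
  have hinv : ∀ v, π (π v) = v := fun v => ((hπu (π v) v (hπ v).symm)).symm
  have hadj : ∀ v, (KB n a ⊔ R).Adj v (π v) := fun v => (hπ v).adj_sub
  -- partner inside the side
  have hj : ∀ i : Fin (n - a), ∃ j : Fin (n - a), a ≤ (π (e i)).val → e j = π (e i) := by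
    intro i
    by_cases h : a ≤ (π (e i)).val
    · obtain ⟨j, hj⟩ := (he _).2 h
      exact ⟨j, fun _ => hj⟩
    · exact ⟨i, fun h' => absurd h' h⟩
  choose j hj using hj
  set B : Finset (Fin (n - a)) := Finset.univ.filter fun i => a ≤ (π (e i)).val with hB
  have hBm : ∀ i, i ∈ B ↔ a ≤ (π (e i)).val := fun i => by simp [hB]
  have hge : ∀ i, a ≤ (e i).val := fun i => (he _).1 ⟨i, rfl⟩
  have hjB : ∀ i ∈ B, j i ∈ B := by
    intro i hi
    rw [hBm] at hi ⊢
    rw [hj i hi, hinv]
    exact hge i
  have hjj : ∀ i ∈ B, j (j i) = i := by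
    intro i hi
    apply e.injective
    rw [hj (j i) ((hBm _).1 (hjB i hi)), hj i ((hBm i).1 hi), hinv]
  have hjne : ∀ i ∈ B, (R.comap e).Adj i (j i) := by
    intro i hi
    rw [SimpleGraph.comap_adj]
    have h1 := hadj (e i)
    rw [← hj i ((hBm i).1 hi)] at h1
    rcases h1 with h1 | h1
    · rcases h1 with h1 | h1
      · exact absurd h1.1 (by have := hge i; omega)
      · exact absurd h1.1 (by have := hge (j i); omega)
    · exact h1
  set MM : Finset (Sym2 (Fin (n - a))) := B.image fun i => s(i, j i) with hMM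
  have hmem : ∀ i ∈ B, ∀ v, v ∈ s(i, j i) → v ∈ B ∧ s(i, j i) = s(v, j v) := by
    intro i hi v hv
    rw [Sym2.mem_iff] at hv
    rcases hv with rfl | rfl
    · exact ⟨hi, rfl⟩
    · refine ⟨hjB i hi, ?_⟩
      rw [hjj i hi]
      exact Sym2.eq_swap
  have hIs : IsM (R.comap e) MM := by
    refine ⟨fun f hf => ?_, fun f hf f' hf' hne v hv hv' => ?_⟩
    · rw [hMM, Finset.mem_image] at hf
      obtain ⟨i, hi, rfl⟩ := hf
      rw [SimpleGraph.mem_edgeSet]
      exact hjne i hi
    · rw [hMM, Finset.mem_image] at hf hf'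
      obtain ⟨i, hi, rfl⟩ := hf
      obtain ⟨i', hi', rfl⟩ := hf'
      exact hne ((hmem i hi v hv).2.trans (hmem i' hi' v hv').2.symm)
  have hcard : B.card ≤ 2 * MM.card := by
    apply Finset.card_le_mul_card_image
    intro f hf
    rw [Finset.mem_image] at hf
    obtain ⟨i, hi, rfl⟩ := hf
    refine (Finset.card_le_card (t := {i, j i}) ?_).trans Finset.card_le_two
    intro v hv
    rw [Finset.mem_filter] at hv
    have h1 : v ∈ s(i, j i) := by
      rw [← hv.2]
      exact Sym2.mem_mk_left _ _
    rw [Sym2.mem_iff] at h1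
    simpa using h1
  have hcomp : (Bᶜ).card ≤ a := by
    have h1 : (Bᶜ).card ≤ ((Finset.univ : Finset (Fin a)).image (Fin.castLE han)).card := by
      apply Finset.card_le_card_of_injOn (fun i => π (e i))
      · intro i hi
        have h2 : ¬ a ≤ (π (e i)).val := by
          rw [← hBm]
          simpa using hi
        rw [Finset.coe_image, Set.mem_image]
        exact ⟨⟨(π (e i)).val, by omega⟩, by simp, rfl⟩
      · intro i _ i' _ hii
        have h3 := congrArg π hii
        simp only [hinv] at h3
        exact e.injective h3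
    refine h1.trans (Finset.card_image_le.trans ?_)
    rw [Finset.card_univ, Fintype.card_fin]
  have h5 := le_nu hIs
  have h6 : B.card + (Bᶜ).card = n - a := by
    rw [Finset.card_add_card_compl, Fintype.card_fin]
  unfold dfc
  rw [Fintype.card_fin]
  have h7 : n - a ≤ a + 2 * nu (R.comap e) := by omega
  have h8 : ((n - a : ℕ) : ℝ) ≤ a + 2 * nu (R.comap e) := by exact_mod_cast h7
  linarith

end Pool.Agent.W371.PM
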