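import Pool.Agent.W845.PM.Base

set_option autoImplicit false
open scoped Classical
open Filter Topology MeasureTheory ProbabilityTheory
open scoped ENNReal NNReal BigOperators

namespace Pool.Agent.W371.PM

open Pool.Agent.W845.PM

theorem an3 : S_AN3 := by
  intro c hc
  set φ : ℝ → ℝ := fun t => Real.exp (-(c * Real.exp (-(c * t)))) with hφ
  have hφc : Continuous φ := by
    simp only [hφ]
    fun_prop
  have hφm : Monotone φ := by
    intro s t hst
    simp only [hφ]
    apply Real.exp_le_exp.2
    have h1 : Real.exp (-(c * t)) ≤ Real.exp (-(c * s)) := Real.exp_le_exp.2 (by nlinarith)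
    nlinarith
  have hφ0 : ∀ t, 0 < φ t := fun t => Real.exp_pos _
  have hφ1 : ∀ t, φ t ≤ 1 := by
    intro t
    simp only [hφ]
    rw [Real.exp_le_one_iff]
    have := Real.exp_pos (-(c * t))
    nlinarith
  set a : ℕ → ℝ := fun k => jc c (2 * k) with ha
  have ha0 : a 0 = 0 := rfl
  have has : ∀ k, a (k + 1) = φ (a k) := fun k => rfl
  have hmono : Monotone a := by
    apply monotone_nat_of_le_succ
    intro k
    induction k with
    | zero =>
      rw [ha0, has]
      exact (hφ0 _).le
    | succ k ih =>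
      rw [has, has (k + 1)]
      exact hφm ih
  have hub : ∀ k, a k ≤ 1 := by
    intro k
    rcases k with _ | k
    · rw [ha0]
      exact zero_le_one
    · rw [has]
      exact hφ1 _
  have hbdd : BddAbove (Set.range a) := ⟨1, by rintro _ ⟨k, rfl⟩; exact hub k⟩
  have hlim : Tendsto a atTop (𝓝 (⨆ k, a k)) := tendsto_atTop_ciSup hmono hbdd
  set t := ⨆ k, a k with ht
  refine ⟨t, ⟨?_, ?_⟩, hlim⟩
  · have h1 : Tendsto (fun k => a (k + 1)) atTop (𝓝 t) := (tendsto_add_atTop_iff_nat 1).2 hlim
    have h2 : Tendsto (fun k => a (k + 1)) atTop (𝓝 (φ t)) := by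
      simp_rw [has]
      exact (hφc.tendsto t).comp hlim
    exact tendsto_nhds_unique h1 h2
  · intro x hx
    have hx' : φ x = x := hx.symm
    have hle : ∀ k, a k ≤ x := by
      intro k
      induction k with
      | zero =>
        rw [ha0, ← hx']
        exact (hφ0 _).le
      | succ k ih =>
        rw [has, ← hx']
        exact hφm ih
    exact le_of_tendsto' hlim hle

theorem gf_cont (c : ℝ) : Continuous (gf c) := by
  unfold gf
  have h := Real.continuous_mul_log
  have h2 : Continuous fun s : ℝ => Real.exp (-(c * s)) := by fun_prop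
  exact (h2.add continuous_id).sub h

theorem gam_max (c : ℝ) : ∃ s ∈ Set.Icc (0 : ℝ) 1, gf c s = Gam c ∧
    ∀ s' ∈ Set.Icc (0 : ℝ) 1, gf c s' ≤ Gam c := by
  obtain ⟨s, hs, hmax⟩ := isCompact_Icc.exists_isMaxOn (Set.nonempty_Icc.2 zero_le_one)
    (gf_cont c).continuousOn
  have hg : IsGreatest (gf c '' Set.Icc (0 : ℝ) 1) (gf c s) := by
    refine ⟨⟨s, hs, rfl⟩, ?_⟩
    rintro _ ⟨s', hs', rfl⟩
    exact hmax hs'
  have he : Gam c = gf c s := hg.csSup_eq
  refine ⟨s, hs, he.symm, fun s' hs' => ?_⟩
  rw [he]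
  exact hmax hs'

theorem gam_strict (c d : ℝ) (hc : 0 < c) (hcd : c < d) : Gam d < Gam c := by
  obtain ⟨s, hs, he, hmax⟩ := gam_max d
  have hs0 : 0 < s := by
    rcases hs.1.lt_or_eq with h | h
    · exact h
    · exfalso
      subst h
      have h1 : gf d 0 = 1 := by simp [gf]
      set s' := Real.exp (-(d + 1)) with hs'
      have hs'0 : 0 < s' := Real.exp_pos _
      have hs'1 : s' ≤ 1 := by
        rw [hs', Real.exp_le_one_iff]
        linarith
      have h2 := hmax s' ⟨hs'0.le, hs'1⟩
      have h3 : Real.log s' = -(d + 1) := Real.log_exp _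
      have h4 : gf d s' = Real.exp (-(d * s')) + s' + s' * (d + 1) := by
        unfold gf
        rw [h3]
        ring
      have h5 := Real.add_one_le_exp (-(d * s'))
      rw [← he, h1, h4] at h2
      nlinarith
  obtain ⟨_, _, _, hmaxc⟩ := gam_max c
  have h1 := hmaxc s hs
  have h2 : gf d s < gf c s := by
    unfold gf
    have : Real.exp (-(d * s)) < Real.exp (-(c * s)) := Real.exp_lt_exp.2 (by nlinarith)
    linarith
  linarith

theorem exp_lip {x y : ℝ} (hx : 0 ≤ x) (hxy : x ≤ y) :
    Real.exp (-x) ≤ Real.exp (-y) + (y - x) := by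
  have h1 : Real.exp (-y) = Real.exp (-x) * Real.exp (-(y - x)) := by
    rw [← Real.exp_add]
    congr 1
    ring
  have h2 := Real.add_one_le_exp (-(y - x))
  have h3 : Real.exp (-x) ≤ 1 := by
    rw [Real.exp_le_one_iff]
    linarith
  have h4 := Real.exp_pos (-x)
  rw [h1]
  nlinarith

theorem gam_lip (c d : ℝ) (hc : 0 ≤ c) (hcd : c ≤ d) : Gam c ≤ Gam d + (d - c) ∧ Gam d ≤ Gam c := by
  obtain ⟨s, hs, he, hmax⟩ := gam_max c
  obtain ⟨s', hs', he', hmax'⟩ := gam_max d
  constructor
  · have h1 := hmax' s hs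
    rw [← he]
    have h2 : gf c s ≤ gf d s + (d - c) := by
      unfold gf
      have h3 := exp_lip (x := c * s) (y := d * s) (mul_nonneg hc hs.1)
        (mul_le_mul_of_nonneg_right hcd hs.1)
      have h4 : d * s - c * s ≤ d - c := by nlinarith [hs.2]
      linarith
    linarith
  · have h1 := hmax s' hs'
    rw [← he']
    refine le_trans ?_ h1
    unfold gf
    have h3 : Real.exp (-(d * s')) ≤ Real.exp (-(c * s')) :=
      Real.exp_le_exp.2 (by nlinarith [hs'.1])
    linarith

theorem gam_cont (c1 c2 : ℝ) (h1 : 0 ≤ c1) : ContinuousOn Gam (Set.Icc c1 c2) := by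
  apply LipschitzOnWith.continuousOn (K := 1)
  apply LipschitzOnWith.of_le_add
  intro x hx y hy
  rw [Real.dist_eq]
  rcases le_total x y with h | h
  · have := (gam_lip x y (h1.trans hx.1) h).1
    rw [abs_of_nonpos (by linarith)]
    linarith
  · have := (gam_lip y x (h1.trans hy.1) h).2
    have h3 := abs_nonneg (x - y)
    linarith

theorem an4 : S_AN4 := by
  refine ⟨gam_strict, ?_⟩
  intro α hα hα2
  set y := 1 / (1 - α) with hy
  have hpos : 0 < 1 - α := by linarith
  have hy1 : 1 < y := by
    rw [hy, lt_div_iff₀ hpos]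
    linarith
  have hy2 : y < 2 := by
    rw [hy, div_lt_iff₀ hpos]
    linarith
  set c1 := 2 - y with hc1
  have hc1pos : 0 < c1 := by linarith
  -- small delta
  have hcont : Continuous fun s : ℝ => s - s * Real.log s :=
    continuous_id.sub Real.continuous_mul_log
  have hev : ∀ᶠ s : ℝ in 𝓝 0, s - s * Real.log s < y - 1 := by
    have h1 := hcont.tendsto 0
    simp only [zero_mul, sub_zero] at h1
    exact h1.eventually_lt_const (by linarith)
  obtain ⟨δ, hδ, hball⟩ := Metric.eventually_nhds_iff.1 hev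
  set δ' := δ / 2 with hδ'
  have hδ'pos : 0 < δ' := by positivity
  set c2 := c1 + |Real.log (y - 1)| / δ' with hc2
  have hc12 : c1 ≤ c2 := by
    have : 0 ≤ |Real.log (y - 1)| / δ' := by positivity
    linarith
  have hexp : Real.exp (-(c2 * δ')) ≤ y - 1 := by
    rw [← Real.le_log_iff_exp_le (by linarith)]
    have h1 : c2 * δ' = c1 * δ' + |Real.log (y - 1)| := by
      rw [hc2]
      field_simp
    rw [h1]
    have h2 := neg_abs_le (Real.log (y - 1))
    have h3 : 0 < c1 * δ' := by positivity
    linarith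
  have hhigh : Gam c2 ≤ y := by
    obtain ⟨s, hs, he, -⟩ := gam_max c2
    rw [← he]
    unfold gf
    by_cases h : s ≤ δ'
    · have h1 : s - s * Real.log s < y - 1 := by
        apply hball
        rw [Real.dist_eq, sub_zero, abs_of_nonneg hs.1]
        linarith
      have h2 : Real.exp (-(c2 * s)) ≤ 1 := by
        rw [Real.exp_le_one_iff]
        have : 0 ≤ c2 * s := mul_nonneg (by linarith) hs.1
        linarith
      linarith
    · push Not at h
      have hs0 : 0 < s := hδ'pos.trans h
      have h1 : Real.exp (-(c2 * s)) ≤ Real.exp (-(c2 * δ')) := by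
        apply Real.exp_le_exp.2
        have : c2 * δ' ≤ c2 * s := mul_le_mul_of_nonneg_left h.le (by linarith)
        linarith
      have h2 := Real.one_sub_inv_le_log_of_pos hs0
      have h3 : s * (1 - s⁻¹) ≤ s * Real.log s := mul_le_mul_of_nonneg_left h2 hs0.le
      have h4 : s * (1 - s⁻¹) = s - 1 := by field_simp
      linarith
  have hlow : y ≤ Gam c1 := by
    obtain ⟨_, _, _, hmax⟩ := gam_max c1
    have h1 := hmax 1 ⟨zero_le_one, le_rfl⟩
    have h2 : gf c1 1 = Real.exp (-c1) + 1 := by simp [gf]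
    have h3 := Real.add_one_le_exp (-c1)
    linarith
  obtain ⟨c, hc, he⟩ := intermediate_value_Icc' hc12 (gam_cont c1 c2 hc1pos.le) ⟨hhigh, hlow⟩
  exact ⟨c, hc1pos.trans_le hc.1, he⟩

end Pool.Agent.W371.PM
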